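import Mathlib
import Pool.Agent.Lib.MP_c80912_nt.Cyclo

/-!
The cyclopolytope `N_k` is reflexive if and only if `k` has at most two odd prime divisors.
-/

set_option autoImplicit false

open Polynomial

namespace Pool.Agent.Results.MP_c80912_nt.Classification

/-- The vector `a^(r)`: the coefficients of the remainder of `t^r` on division by `Φ_k(t)`. -/
noncomputable def rootVec (k r : ℕ) : Fin (Nat.totient k) → ℝ :=
  fun s => ((((X : ℤ[X]) ^ r %ₘ cyclotomic k ℤ).coeff s : ℤ) : ℝ)

/-- The cyclopolytope `N_k`, the convex hull of the vectors `a^(r)`, `0 ≤ r ≤ k - 1`. -/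
noncomputable def cyclopolytope (k : ℕ) : Set (Fin (Nat.totient k) → ℝ) :=
  convexHull ℝ {x | ∃ r, r < k ∧ x = rootVec k r}

/-- The polar `P* = {y : ⟨x, y⟩ ≤ 1 for all x ∈ P}`. -/
def polarSet {d : ℕ} (P : Set (Fin d → ℝ)) : Set (Fin d → ℝ) :=
  {y | ∀ x ∈ P, ∑ i, x i * y i ≤ 1}

/-- `P` is full-dimensional, has the origin in its interior, and all vertices (extreme points) of
its polar are integral. -/
def IsReflexive {d : ℕ} (P : Set (Fin d → ℝ)) : Prop :=
  affineSpan ℝ P = ⊤ ∧ (0 : Fin d → ℝ) ∈ interior P ∧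
    ∀ y ∈ (polarSet P).extremePoints ℝ, ∀ i, ∃ z : ℤ, y i = (z : ℝ)

open Pool.Agent.Lib.MP_c80912_nt Finset

/-- The pairing of `y` with the class of a polynomial modulo `Φ_k`. -/
noncomputable def pairing (k : ℕ) (y : Fin (Nat.totient k) → ℝ) (P : ℤ[X]) : ℝ :=
  ∑ s : Fin (Nat.totient k), (((P %ₘ cyclotomic k ℤ).coeff s : ℤ) : ℝ) * y s

theorem pairing_add (k : ℕ) (y : Fin (Nat.totient k) → ℝ) (P Q : ℤ[X]) :
    pairing k y (P + Q) = pairing k y P + pairing k y Q := by
  simp only [pairing, add_modByMonic, coeff_add, Int.cast_add, add_mul, Finset.sum_add_distrib]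

theorem pairing_of_dvd (k : ℕ) (y : Fin (Nat.totient k) → ℝ) (P : ℤ[X])
    (h : cyclotomic k ℤ ∣ P) : pairing k y P = 0 := by
  have h0 : P %ₘ cyclotomic k ℤ = 0 := (modByMonic_eq_zero_iff_dvd (cyclotomic.monic k ℤ)).mpr h
  simp [pairing, h0]

theorem pairing_sum (k : ℕ) (y : Fin (Nat.totient k) → ℝ) (s : Finset ℕ) (P : ℕ → ℤ[X]) :
    pairing k y (∑ i ∈ s, P i) = ∑ i ∈ s, pairing k y (P i) := by
  induction s using Finset.induction_on with
  | empty => simpa using pairing_of_dvd k y 0 (dvd_zero _)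
  | insert a s ha ih => rw [Finset.sum_insert ha, Finset.sum_insert ha, pairing_add, ih]

theorem rootVec_lt (k : ℕ) (s : Fin (Nat.totient k)) : rootVec k s = Pi.single s 1 := by
  have h0 : (X : ℤ[X]) ^ (s : ℕ) %ₘ cyclotomic k ℤ = X ^ (s : ℕ) := by
    rw [modByMonic_eq_self_iff (cyclotomic.monic k ℤ), degree_cyclotomic, degree_X_pow]
    exact_mod_cast s.2
  funext t
  simp only [rootVec, h0, coeff_X_pow, Pi.single_apply, Fin.ext_iff]
  split_ifs <;> simp

theorem pairing_X_pow (k : ℕ) (y : Fin (Nat.totient k) → ℝ) (s : Fin (Nat.totient k)) :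
    pairing k y (X ^ (s : ℕ)) = y s := by
  show ∑ t, rootVec k s t * y t = y s
  rw [rootVec_lt]
  simp [Pi.single_apply]

theorem pairing_comb (k : ℕ) (y z : Fin (Nat.totient k) → ℝ) (a b : ℝ) (P : ℤ[X]) :
    pairing k (a • y + b • z) P = a * pairing k y P + b * pairing k z P := by
  simp only [pairing, Pi.add_apply, Pi.smul_apply, smul_eq_mul, Finset.mul_sum,
    ← Finset.sum_add_distrib]
  exact Finset.sum_congr rfl (fun s _ => by ring)

theorem pairing_geom {k p : ℕ} (hk : 2 ≤ k) (hp : 2 ≤ p) (hpk : p ∣ k)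
    (y : Fin (Nat.totient k) → ℝ) (m : ℕ) :
    ∑ i ∈ range p, pairing k y (X ^ (m + i * (k / p))) = 0 := by
  rw [← pairing_sum]
  apply pairing_of_dvd
  have h : ∑ i ∈ range p, (X : ℤ[X]) ^ (m + i * (k / p)) =
      X ^ m * ∑ i ∈ range p, ((X : ℤ[X]) ^ (k / p)) ^ i := by
    rw [Finset.mul_sum]
    exact Finset.sum_congr rfl fun i _ => by rw [← pow_mul, ← pow_add, mul_comm]
  rw [h]
  exact (cyclo_dvd_geom hk hp hpk).mul_left _

theorem rel_pairing {k : ℕ} (hk : 2 ≤ k) (y : Fin (Nat.totient k) → ℝ) :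
    Rel k fun r => pairing k y (X ^ r) :=
  fun _ hp hpk m => pairing_geom hk hp.two_le hpk y m

theorem pairing_of_rel {k : ℕ} (hk : 2 ≤ k) {f : ℕ → ℝ} (hf : Rel k f) (r : ℕ) :
    pairing k (fun s => f s) (X ^ r) = f r :=
  rel_expand hk hf r

theorem mem_polar_iff {k : ℕ} (hk : 2 ≤ k) (y : Fin (Nat.totient k) → ℝ) :
    y ∈ polarSet (cyclopolytope k) ↔ ∀ r, pairing k y (X ^ r) ≤ 1 := by
  constructor
  · intro h r
    rw [← ((rel_pairing hk y).periodic hk).map_mod_nat r]
    exact h (rootVec k (r % k)) (subset_convexHull ℝ _ ⟨r % k, Nat.mod_lt _ (by omega), rfl⟩)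
  · intro h x hx
    have hconv : Convex ℝ {x : Fin (Nat.totient k) → ℝ | ∑ i, x i * y i ≤ 1} := by
      intro x1 h1 x2 h2 a b ha hb hab
      have h1' : ∑ i, x1 i * y i ≤ 1 := h1
      have h2' : ∑ i, x2 i * y i ≤ 1 := h2
      show ∑ i, (a • x1 + b • x2) i * y i ≤ 1
      have : ∑ i, (a • x1 + b • x2) i * y i = a * ∑ i, x1 i * y i + b * ∑ i, x2 i * y i := by
        simp only [Pi.add_apply, Pi.smul_apply, smul_eq_mul, Finset.mul_sum,
          ← Finset.sum_add_distrib]
        exact Finset.sum_congr rfl (fun s _ => by ring)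
      rw [this]
      nlinarith
    refine convexHull_min ?_ hconv hx
    rintro x ⟨r, -, rfl⟩
    exact h r

theorem sum_pairing {k : ℕ} (hk : 2 ≤ k) (y : Fin (Nat.totient k) → ℝ) (m : ℕ) :
    ∑ i ∈ range k, pairing k y (X ^ (m + i)) = 0 := by
  have h := pairing_geom hk hk dvd_rfl y m
  simpa only [Nat.div_self (by omega : 0 < k), mul_one] using h

theorem abs_le_of_polar {k : ℕ} (hk : 2 ≤ k) {y : Fin (Nat.totient k) → ℝ}
    (hy : y ∈ polarSet (cyclopolytope k)) (s : Fin (Nat.totient k)) : |y s| ≤ k := by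
  rw [mem_polar_iff hk] at hy
  have h1 := hy s
  rw [pairing_X_pow] at h1
  have h2 := sum_pairing hk y s
  obtain ⟨k', hk'⟩ : ∃ k', k = k' + 1 := ⟨k - 1, by omega⟩
  have h3 : range k = range (k' + 1) := by rw [hk']
  rw [h3, Finset.sum_range_succ', add_zero, pairing_X_pow] at h2
  have h4 : ∑ i ∈ range k', pairing k y (X ^ ((s : ℕ) + (i + 1))) ≤ ∑ i ∈ range k', (1 : ℝ) :=
    Finset.sum_le_sum fun i _ => hy _
  rw [Finset.sum_const, Finset.card_range, nsmul_eq_mul, mul_one] at h4
  have h5 : (k : ℝ) = k' + 1 := by exact_mod_cast hk'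
  have h6 : (0 : ℝ) ≤ k' := Nat.cast_nonneg k'
  rw [abs_le]
  constructor <;> linarith

theorem sum_rootVec {k : ℕ} (hk : 2 ≤ k) : ∑ r ∈ range k, rootVec k r = 0 := by
  funext s
  have h := sum_pairing hk (Pi.single s 1) 0
  rw [Finset.sum_apply, Pi.zero_apply, ← h]
  refine Finset.sum_congr rfl fun r _ => ?_
  show rootVec k r s = ∑ t, rootVec k (0 + r) t * (Pi.single s (1 : ℝ) : _ → ℝ) t
  simp [Pi.single_apply]

theorem zero_mem_interior {k : ℕ} (hk : 2 ≤ k) :
    (0 : Fin (Nat.totient k) → ℝ) ∈ interior (cyclopolytope k) := by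
  have hconv : Convex ℝ (cyclopolytope k) := convex_convexHull ℝ _
  have hk0 : (0 : ℝ) < k := by exact_mod_cast (by omega : 0 < k)
  have hd : 0 < Nat.totient k := Nat.totient_pos.mpr (by omega)
  have hd0 : (0 : ℝ) < Nat.totient k := by exact_mod_cast hd
  refine mem_interior_iff_mem_nhds.mpr (Filter.mem_of_superset
    (Metric.ball_mem_nhds _ (by positivity : 0 < 1 / ((k : ℝ) * (Nat.totient k + 1)))) ?_)
  intro x hx
  rw [mem_ball_zero_iff] at hx
  have hxi : ∀ s, |x s| ≤ 1 / ((k : ℝ) * (Nat.totient k + 1)) := fun s =>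
    (norm_le_pi_norm x s).trans hx.le
  -- weights `(1 - ∑ x) / k + x r`
  set x' : ℕ → ℝ := fun r => if h : r < Nat.totient k then x ⟨r, h⟩ else 0 with hx'
  have hle : Nat.totient k ≤ k := Nat.totient_le k
  have hsumx : ∀ v : ℕ → Fin (Nat.totient k) → ℝ,
      ∑ r ∈ range k, x' r • v r = ∑ s : Fin (Nat.totient k), x s • v s := by
    intro v
    rw [← Finset.sum_subset (Finset.range_subset_range.mpr hle) (f := fun r => x' r • v r)
      (fun r _ hr => by simp [hx', Finset.mem_range.not.mp hr]), Finset.sum_range]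
    exact Finset.sum_congr rfl fun s _ => by simp [hx']
  have hsumx' : ∑ r ∈ range k, x' r = ∑ s, x s := by
    have h := congrFun (hsumx fun _ _ => 1) ⟨0, hd⟩
    simpa [Finset.sum_apply] using h
  have hS : |∑ s, x s| ≤ Nat.totient k * (1 / ((k : ℝ) * (Nat.totient k + 1))) := by
    refine (Finset.abs_sum_le_sum_abs _ _).trans ?_
    refine (Finset.sum_le_sum fun s _ => hxi s).trans ?_
    simp
  have hx'abs : ∀ r, |x' r| ≤ 1 / ((k : ℝ) * (Nat.totient k + 1)) := by
    intro r
    simp only [hx']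
    split_ifs
    · exact hxi _
    · rw [abs_zero]; positivity
  have hmem := hconv.sum_mem (t := range k) (w := fun r => (1 - ∑ s, x s) / k + x' r)
    (z := fun r => rootVec k r) (fun r _ => ?_) ?_
    (fun r hr => subset_convexHull ℝ _ ⟨r, Finset.mem_range.mp hr, rfl⟩)
  · simp only [add_smul] at hmem
    rw [Finset.sum_add_distrib, ← Finset.smul_sum, sum_rootVec hk, smul_zero, zero_add,
      hsumx] at hmem
    have h : ∑ s : Fin (Nat.totient k), x s • rootVec k s = x := by
      funext t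
      simp [rootVec_lt, Finset.sum_apply, Pi.single_apply]
    rwa [h] at hmem
  · have h1 := (abs_le.mp hS).2
    have h2 := (abs_le.mp (hx'abs r)).1
    have hk1 : (1 : ℝ) ≤ k := by exact_mod_cast (by omega : 1 ≤ k)
    set e : ℝ := 1 / ((k : ℝ) * (Nat.totient k + 1)) with he
    have he0 : 0 < e := by positivity
    have h3 : k * (Nat.totient k + 1) * e = 1 := by rw [he]; field_simp
    have h4 : e ≤ (1 - ∑ s, x s) / k := by
      rw [le_div_iff₀ hk0]
      have h5 : Nat.totient k * e * 1 ≤ Nat.totient k * e * k :=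
        mul_le_mul_of_nonneg_left hk1 (by positivity)
      nlinarith
    linarith
  · rw [Finset.sum_add_distrib, hsumx', Finset.sum_const, Finset.card_range, nsmul_eq_mul]
    field_simp
    ring

theorem continuous_pairing (k : ℕ) (P : ℤ[X]) :
    Continuous fun y : Fin (Nat.totient k) → ℝ => pairing k y P := by
  unfold pairing
  fun_prop

theorem not_integral_of_bad {k : ℕ} (hk : 2 ≤ k) (h : Bad k) :
    ¬ ∀ y ∈ (polarSet (cyclopolytope k)).extremePoints ℝ, ∀ i, ∃ z : ℤ, y i = (z : ℝ) := by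
  obtain ⟨f, hf, hb, ho⟩ := h
  intro hint
  set F : Set (Fin (Nat.totient k) → ℝ) :=
    {y | y ∈ polarSet (cyclopolytope k) ∧ ∀ n, f n = 1 → pairing k y (X ^ n) = 1} with hF
  have hext : IsExtreme ℝ (polarSet (cyclopolytope k)) F := by
    refine ⟨fun y hy => hy.1, ?_⟩
    rintro x1 h1 x2 h2 y hy ⟨a, b, ha, hb', hab, rfl⟩
    refine ⟨h1, fun n hn => ?_⟩
    have e1 := hy.2 n hn
    rw [pairing_comb] at e1
    have e2 := (mem_polar_iff hk x1).mp h1 n
    have e3 := (mem_polar_iff hk x2).mp h2 n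
    nlinarith
  have hclosed : IsClosed F := by
    have h1 : F = (⋂ n, {y | pairing k y (X ^ n) ≤ 1}) ∩
        ⋂ n, ⋂ (_ : f n = 1), {y | pairing k y (X ^ n) = 1} := by
      ext y
      simp only [hF, Set.mem_ofPred_eq, Set.mem_inter_iff, Set.mem_iInter, mem_polar_iff hk]
    rw [h1]
    exact (isClosed_iInter fun n => isClosed_le (continuous_pairing k _) continuous_const).inter
      (isClosed_iInter fun n => isClosed_iInter fun _ =>
        isClosed_eq (continuous_pairing k _) continuous_const)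
  have hbdd : Bornology.IsBounded F := by
    refine (Metric.isBounded_closedBall (x := (0 : Fin (Nat.totient k) → ℝ)) (r := k)).subset ?_
    intro y hy
    rw [mem_closedBall_zero_iff, pi_norm_le_iff_of_nonneg (Nat.cast_nonneg k)]
    exact fun s => abs_le_of_polar hk hy.1 s
  have hne : F.Nonempty := by
    refine ⟨fun s => f s, (mem_polar_iff hk _).mpr fun r => ?_, fun n hn => ?_⟩
    · rw [pairing_of_rel hk hf]; exact (abs_le.mp (hb r)).2
    · rw [pairing_of_rel hk hf]; exact hn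
  obtain ⟨y, hy⟩ := (Metric.isCompact_of_isClosed_isBounded hclosed hbdd).extremePoints_nonempty hne
  choose zf hzf using hint y (hext.extremePoints_subset_extremePoints hy)
  obtain ⟨n, hn1, hn2⟩ := ho (fun r => pairing k y (X ^ r)) (rel_pairing hk y) fun r =>
    ⟨∑ s, ((X : ℤ[X]) ^ r %ₘ cyclotomic k ℤ).coeff (s : Fin (Nat.totient k)) * zf s, by
      unfold pairing
      push_cast
      exact Finset.sum_congr rfl fun s _ => by rw [hzf]⟩
  exact hn2 (hy.1.2 n hn1)

theorem integral_of_card {k : ℕ} (hk : 2 ≤ k) (hO : (k.primeFactors.erase 2).card ≤ 2) :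
    ∀ y ∈ (polarSet (cyclopolytope k)).extremePoints ℝ, ∀ i, ∃ z : ℤ, y i = (z : ℝ) := by
  intro y hy i
  by_contra hcon
  push Not at hcon
  obtain ⟨hyP, hyE⟩ := mem_extremePoints.mp hy
  have hyle := (mem_polar_iff hk y).mp hyP
  obtain ⟨δ, hδ, ⟨n0, hn0⟩, hsupp⟩ := exists_perturb hk hO (rel_pairing hk y)
    ⟨i, by simpa only [pairing_X_pow] using hcon⟩
  have hperf := (rel_pairing hk y).periodic hk
  have hperδ := hδ.periodic hk
  have hev : ∀ᶠ t in nhds (0 : ℝ), ∀ r ∈ range k, pairing k y (X ^ r) + t * δ r ≤ 1 := by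
    refine (Filter.eventually_all_finset _).mpr fun r _ => ?_
    by_cases h0 : δ r = 0
    · exact Filter.Eventually.of_forall fun t => by rw [h0, mul_zero, add_zero]; exact hyle r
    · have h1 : pairing k y (X ^ r) < 1 :=
        lt_of_le_of_ne (hyle r) (by simpa using hsupp r h0 1)
      have h2 : ContinuousAt (fun t : ℝ => pairing k y (X ^ r) + t * δ r) 0 := by fun_prop
      exact (h2.eventually_lt continuousAt_const (by simpa using h1)).mono fun t ht => ht.le
  obtain ⟨ε, hε, hball⟩ := Metric.eventually_nhds_iff.mp hev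
  have hmem : ∀ t : ℝ, |t| < ε → (1 : ℝ) • y + t • (fun s => δ s : Fin (Nat.totient k) → ℝ) ∈
      polarSet (cyclopolytope k) := by
    intro t ht
    refine (mem_polar_iff hk _).mpr fun r => ?_
    rw [pairing_comb, pairing_of_rel hk hδ, one_mul, ← hperf.map_mod_nat r, ← hperδ.map_mod_nat r]
    exact hball (by simpa using ht) _ (Finset.mem_range.mpr (Nat.mod_lt _ (by omega)))
  have h1 := (hyE _ (hmem (ε / 2) (by rw [abs_of_pos (by positivity)]; linarith)) _
    (hmem (-(ε / 2)) (by rw [abs_neg, abs_of_pos (by positivity)]; linarith))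
    ⟨1 / 2, 1 / 2, by norm_num, by norm_num, by norm_num, by
      funext s
      simp only [Pi.add_apply, Pi.smul_apply, smul_eq_mul]
      ring⟩).1
  have h2 := congrArg (fun v => pairing k v (X ^ n0)) h1
  simp only [pairing_comb, pairing_of_rel hk hδ, one_mul] at h2
  have h3 : ε / 2 * δ n0 = 0 := by linarith
  rcases mul_eq_zero.mp h3 with h4 | h4
  · linarith
  · exact hn0 h4

/-- For `k ≥ 2`, the cyclopolytope `N_k` is reflexive if and only if `k` has at most two odd prime
divisors. -/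
theorem result (k : ℕ) (hk : 2 ≤ k) :
    IsReflexive (cyclopolytope k) ↔ (k.primeFactors.filter Odd).card ≤ 2 := by
  have hfil : k.primeFactors.filter Odd = k.primeFactors.erase 2 := by
    ext p
    simp only [Finset.mem_filter, Finset.mem_erase]
    constructor
    · rintro ⟨h1, h2⟩
      exact ⟨fun h => by rw [h] at h2; exact absurd h2 (by decide), h1⟩
    · rintro ⟨h1, h2⟩
      exact ⟨h2, (Nat.prime_of_mem_primeFactors h2).odd_of_ne_two h1⟩
  rw [hfil]
  constructor
  · rintro ⟨-, -, h⟩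
    by_contra hcon
    obtain ⟨p, hp, q, hq, r, hr, hpq, hpr, hqr⟩ := Finset.two_lt_card.mp (not_le.mp hcon)
    obtain ⟨hp2, hp3⟩ := Finset.mem_erase.mp hp
    obtain ⟨hq2, hq3⟩ := Finset.mem_erase.mp hq
    obtain ⟨hr2, hr3⟩ := Finset.mem_erase.mp hr
    exact not_integral_of_bad hk (bad_of_three (by omega) (Nat.prime_of_mem_primeFactors hp3)
      (Nat.prime_of_mem_primeFactors hq3) (Nat.prime_of_mem_primeFactors hr3) hp2 hq2 hr2 hpq hpr hqr
      (Nat.dvd_of_mem_primeFactors hp3) (Nat.dvd_of_mem_primeFactors hq3)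
      (Nat.dvd_of_mem_primeFactors hr3)) h
  · intro h
    exact ⟨(convex_convexHull ℝ _).interior_nonempty_iff_affineSpan_eq_top.mp
      ⟨0, zero_mem_interior hk⟩, zero_mem_interior hk, integral_of_card hk h⟩

end Pool.Agent.Results.MP_c80912_nt.Classification
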