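import Pool.Agent.Results.MP_c80912_nt.Classification
import Pool.Agent.Lib.MP_c80912_nt.IdxMain

/-!
The polar of the cyclopolytope `N_k` has vertices with denominators divisible by any given number
as soon as `k` has three large prime divisors.
-/

set_option autoImplicit false

open Polynomial

namespace Pool.Agent.Results.MP_c80912_nt.DeepFacets

open Pool.Agent.Results.MP_c80912_nt.Classification Pool.Agent.Lib.MP_c80912_nt

theorem vertex_of_deep {l k : ℕ} {w : ℝ} (hk : 2 ≤ k) (h : Deep l w (· = 1) k) :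
    ∃ y ∈ (polarSet (cyclopolytope k)).extremePoints ℝ,
      ∀ m : ℤ, (∀ i, ∃ z : ℤ, (m : ℝ) * y i = z) → (l : ℤ) ∣ m := by
  obtain ⟨f, hf, hb, ho⟩ := h
  set F : Set (Fin (Nat.totient k) → ℝ) :=
    {y | y ∈ polarSet (cyclopolytope k) ∧ ∀ n, f n = 1 → pairing k y (X ^ n) = 1} with hF
  have hext : IsExtreme ℝ (polarSet (cyclopolytope k)) F := by
    refine ⟨fun y hy => hy.1, ?_⟩
    rintro x1 h1 x2 h2 y hy ⟨a, b, ha, hb', hab, rfl⟩
    refine ⟨h1, fun n hn => ?_⟩
    have e1 := hy.2 n hn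
    rw [pairing_comb] at e1
    have e2 := (mem_polar_iff hk x1).mp h1 n
    have e3 := (mem_polar_iff hk x2).mp h2 n
    nlinarith
  have hclosed : IsClosed F := by
    have h1 : F = (⋂ n, {y | pairing k y (X ^ n) ≤ 1}) ∩
        ⋂ n, ⋂ (_ : f n = 1), {y | pairing k y (X ^ n) = 1} := by
      ext y
      simp only [hF, Set.mem_ofPred_eq, Set.mem_inter_iff, Set.mem_iInter, mem_polar_iff hk]
    rw [h1]
    exact (isClosed_iInter fun n => isClosed_le (continuous_pairing k _) continuous_const).inter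
      (isClosed_iInter fun n => isClosed_iInter fun _ =>
        isClosed_eq (continuous_pairing k _) continuous_const)
  have hbdd : Bornology.IsBounded F := by
    refine (Metric.isBounded_closedBall (x := (0 : Fin (Nat.totient k) → ℝ)) (r := k)).subset ?_
    intro y hy
    rw [mem_closedBall_zero_iff, pi_norm_le_iff_of_nonneg (Nat.cast_nonneg k)]
    exact fun s => abs_le_of_polar hk hy.1 s
  have hne : F.Nonempty := by
    refine ⟨fun s => f s, (mem_polar_iff hk _).mpr fun r => ?_, fun n hn => ?_⟩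
    · rw [pairing_of_rel hk hf]; exact (hb r).2
    · rw [pairing_of_rel hk hf]; exact hn
  obtain ⟨y, hy⟩ := (Metric.isCompact_of_isClosed_isBounded hclosed hbdd).extremePoints_nonempty hne
  refine ⟨y, hext.extremePoints_subset_extremePoints hy, fun m hm => ?_⟩
  choose zf hzf using hm
  refine ho (fun r => pairing k y (X ^ r)) m (rel_pairing hk y) (fun r =>
    ⟨∑ s, ((X : ℤ[X]) ^ r %ₘ cyclotomic k ℤ).coeff (s : Fin (Nat.totient k)) * zf s, ?_⟩)
    fun n hn => (hy.1.2 n hn).trans hn.symm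
  unfold pairing
  push_cast
  rw [Finset.mul_sum]
  exact Finset.sum_congr rfl fun s _ => by rw [← hzf, mul_left_comm]

theorem rational_vertex {k : ℕ} (hk : 2 ≤ k) {y : Fin (Nat.totient k) → ℝ}
    (hy : y ∈ (polarSet (cyclopolytope k)).extremePoints ℝ) :
    ∃ m : ℕ, 0 < m ∧ ∀ i, ∃ z : ℤ, (m : ℝ) * y i = z := by
  obtain ⟨φ, hφ⟩ : ∃ φ : ℝ →ₗ[ℚ] ℚ, φ 1 = 1 := by
    obtain ⟨φ, h⟩ := (Algebra.linearMap ℚ ℝ).exists_leftInverse_of_injective
      (LinearMap.ker_eq_bot.2 (algebraMap ℚ ℝ).injective)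
    exact ⟨φ, by simpa using LinearMap.congr_fun h 1⟩
  obtain ⟨y', hy'⟩ : ∃ y' : Fin (Nat.totient k) → ℝ, y' = fun i => (φ (y i) : ℝ) := ⟨_, rfl⟩
  have hp : ∀ P, pairing k y' P = φ (pairing k y P) := fun P => by
    simp only [pairing, hy', map_sum, ← zsmul_eq_mul, map_zsmul]
    simp
  obtain ⟨hyP, hyE⟩ := mem_extremePoints.mp hy
  have hyle := (mem_polar_iff hk y).mp hyP
  have hev : ∀ᶠ t in nhds (0 : ℝ), ∀ r ∈ Finset.range k,
      (1 - t) * pairing k y (X ^ r) + t * pairing k y' (X ^ r) ≤ 1 := by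
    refine (Filter.eventually_all_finset _).mpr fun r _ => ?_
    by_cases h0 : pairing k y (X ^ r) = 1
    · exact Filter.Eventually.of_forall fun t => by simp [hp, h0, hφ]
    · have h2 : ContinuousAt (fun t : ℝ =>
          (1 - t) * pairing k y (X ^ r) + t * pairing k y' (X ^ r)) 0 := by fun_prop
      exact (h2.eventually_lt continuousAt_const
        (by simpa using lt_of_le_of_ne (hyle r) h0)).mono fun t ht => ht.le
  obtain ⟨ε, hε, hball⟩ := Metric.eventually_nhds_iff.mp hev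
  have hmem : ∀ t : ℝ, |t| < ε → (1 - t) • y + t • y' ∈ polarSet (cyclopolytope k) := by
    intro t ht
    refine (mem_polar_iff hk _).mpr fun r => ?_
    rw [pairing_comb, ← ((rel_pairing hk y).periodic hk).map_mod_nat r,
      ← ((rel_pairing hk y').periodic hk).map_mod_nat r]
    exact hball (by simpa using ht) _ (Finset.mem_range.mpr (Nat.mod_lt _ (by omega)))
  have h1 := (hyE _ (hmem (ε / 2) (by rw [abs_of_pos (by positivity)]; linarith)) _
    (hmem (-(ε / 2)) (by rw [abs_neg, abs_of_pos (by positivity)]; linarith))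
    ⟨1 / 2, 1 / 2, by norm_num, by norm_num, by norm_num, by
      funext s
      simp only [Pi.add_apply, Pi.smul_apply, smul_eq_mul]
      ring⟩).1
  refine ⟨∏ i, (φ (y i)).den, Finset.prod_pos fun i _ => (φ (y i)).den_pos, fun i => ?_⟩
  have h2 : y i = φ (y i) := by
    have h3 := congrFun h1 i
    simp only [hy', Pi.add_apply, Pi.smul_apply, smul_eq_mul] at h3
    exact mul_left_cancel₀ (by positivity : ε / 2 ≠ 0) (by linarith)
  obtain ⟨c, hc⟩ := Finset.dvd_prod_of_mem (fun i => (φ (y i)).den) (Finset.mem_univ i)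
  refine ⟨c * (φ (y i)).num, ?_⟩
  have h4 : ((φ (y i)).den : ℝ) * (φ (y i) : ℝ) = (φ (y i)).num := by
    exact_mod_cast (φ (y i)).den_mul_eq_num
  rw [hc]
  push_cast
  rw [← h4, ← h2]
  ring

/-- If `k` has at least three prime divisors that are at least `3 l ^ 4`, the polar of `N_k` has a
vertex `y` whose denominator, the least positive integer `d` with `d y` integral, is a multiple
of `l`. -/
theorem result (l k : ℕ) (hl : 2 ≤ l)
    (h : 3 ≤ (k.primeFactors.filter fun p => 3 * l ^ 4 ≤ p).card) :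
    ∃ y ∈ (polarSet (cyclopolytope k)).extremePoints ℝ, ∃ d : ℕ,
      IsLeast {m : ℕ | 0 < m ∧ ∀ i, ∃ z : ℤ, (m : ℝ) * y i = z} d ∧ l ∣ d := by
  classical
  obtain ⟨p, hp, q, hq, r, hr, hpq, hpr, hqr⟩ := Finset.two_lt_card.mp h
  obtain ⟨hp1, hp2⟩ := Finset.mem_filter.mp hp
  obtain ⟨hq1, hq2⟩ := Finset.mem_filter.mp hq
  obtain ⟨hr1, hr2⟩ := Finset.mem_filter.mp hr
  obtain ⟨p1, p2, hk⟩ := Nat.mem_primeFactors.mp hp1
  have hk2 : 2 ≤ k := p1.two_le.trans (Nat.le_of_dvd (by omega) p2)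
  obtain ⟨w, hw⟩ := deep_main hl hk p1 (Nat.prime_of_mem_primeFactors hq1)
    (Nat.prime_of_mem_primeFactors hr1) hpq hpr hqr p2 (Nat.dvd_of_mem_primeFactors hq1)
    (Nat.dvd_of_mem_primeFactors hr1) hp2 hq2 hr2
  obtain ⟨y, hy, hm⟩ := vertex_of_deep hk2 hw
  have hex := rational_vertex hk2 hy
  refine ⟨y, hy, Nat.find hex, ⟨Nat.find_spec hex, fun m h => Nat.find_min' hex h⟩, ?_⟩
  exact_mod_cast hm (Nat.find hex) (by simpa using (Nat.find_spec hex).2)

end Pool.Agent.Results.MP_c80912_nt.DeepFacets
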