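import Mathlib
import Pool.Agent.Results.MP_c80912_nt.Classification

/-!
If `k` has three distinct odd prime divisors, the cyclopolytope `N_k` is not normal: for some `n`
an integral point of `n N_k` is not a sum of `n` integral points of `N_k`.
-/

set_option autoImplicit false

open Polynomial Finset

namespace Pool.Agent.Results.MP_c80912_nt.NotNormal

open Pool.Agent.Lib.MP_c80912_nt Pool.Agent.Results.MP_c80912_nt.Classification

/-- Evaluation of a coefficient vector at a complex number. -/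
noncomputable def ev (k : ℕ) (w : ℂ) : (Fin (Nat.totient k) → ℝ) →ₗ[ℝ] ℂ where
  toFun x := ∑ s, (x s : ℂ) * w ^ (s : ℕ)
  map_add' x y := by simp [add_mul, Finset.sum_add_distrib]
  map_smul' a x := by simp [Finset.mul_sum, mul_assoc]

theorem ev_rootVec {k : ℕ} (hk : 0 < k) {w : ℂ} (hw : IsPrimitiveRoot w k) (r : ℕ) :
    ev k w (rootVec k r) = w ^ r := by
  have hm := cyclotomic.monic k ℤ
  have hroot : aeval w (cyclotomic k ℤ) = 0 := by
    rw [cyclotomic_eq_minpoly hw hk]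
    exact minpoly.aeval ℤ w
  have hne : cyclotomic k ℤ ≠ 1 := by
    intro h
    rw [h, map_one] at hroot
    exact one_ne_zero hroot
  have hd : ((X : ℤ[X]) ^ r %ₘ cyclotomic k ℤ).natDegree < Nat.totient k := by
    have h := natDegree_modByMonic_lt ((X : ℤ[X]) ^ r) hm hne
    rwa [natDegree_cyclotomic] at h
  have h1 : aeval w ((X : ℤ[X]) ^ r %ₘ cyclotomic k ℤ) = w ^ r := by
    rw [aeval_modByMonic_eq_self_of_root hroot]
    simp
  rw [← h1, aeval_eq_sum_range' hd, Finset.sum_range]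
  show ∑ s : Fin (Nat.totient k), ((rootVec k r s : ℝ) : ℂ) * w ^ (s : ℕ) = _
  simp [rootVec]

theorem norm_ev_le {k : ℕ} (hk : 0 < k) {w : ℂ} (hw : IsPrimitiveRoot w k)
    {z : Fin (Nat.totient k) → ℝ} (hz : z ∈ cyclopolytope k) : ‖ev k w z‖ ≤ 1 := by
  have hc : Convex ℝ (ev k w ⁻¹' Metric.closedBall (0 : ℂ) 1) :=
    (convex_closedBall (0 : ℂ) 1).linear_preimage _
  have h : z ∈ ev k w ⁻¹' Metric.closedBall (0 : ℂ) 1 := by
    refine convexHull_min ?_ hc hz
    rintro x ⟨r, -, rfl⟩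
    simp [ev_rootVec hk hw, hw.norm'_eq_one hk.ne']
  simpa using h

theorem ev_eq_pow {k : ℕ} (hk : 0 < k) {w : ℂ} (hw : IsPrimitiveRoot w k)
    {z : Fin (Nat.totient k) → ℝ} (hz : z ∈ cyclopolytope k) (h1 : ‖ev k w z‖ = 1) :
    ∃ r : ℕ, ev k w z = w ^ r := by
  by_contra hno
  set u := ev k w z with hu
  have hc : Convex ℝ (ev k w ⁻¹' {v : ℂ | inner ℝ u v < (1 : ℝ)}) :=
    (convex_halfSpace_lt (innerₛₗ ℝ u).isLinear 1).linear_preimage _
  have h : z ∈ ev k w ⁻¹' {v : ℂ | inner ℝ u v < (1 : ℝ)} := by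
    refine convexHull_min ?_ hc hz
    rintro x ⟨r, -, rfl⟩
    show inner ℝ u (ev k w (rootVec k r)) < (1 : ℝ)
    rw [ev_rootVec hk hw]
    have hn : ‖w ^ r‖ = 1 := by simp [hw.norm'_eq_one hk.ne']
    exact (inner_lt_one_iff_real_of_norm_eq_one h1 hn).mpr fun h => hno ⟨r, h⟩
  have h2 : inner ℝ u u < (1 : ℝ) := h
  rw [real_inner_self_eq_norm_sq, h1] at h2
  norm_num at h2

theorem exists_field {k : ℕ} (hk : 0 < k) :
    ∃ (K : Type) (_ : Field K) (_ : NumberField K) (ζ : K), IsPrimitiveRoot ζ k := by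
  have : NeZero k := ⟨hk.ne'⟩
  have : NeZero (k : ℚ) := ⟨by exact_mod_cast hk.ne'⟩
  obtain ⟨ζ, hζ⟩ := (CyclotomicField.isCyclotomicExtension k ℚ).exists_isPrimitiveRoot
    (Set.mem_singleton k) hk.ne'
  exact ⟨CyclotomicField k ℚ, inferInstance, inferInstance, ζ, hζ⟩

/-- The integral points of `N_k` are the origin and the vectors `a^(r)` (Kronecker). -/
theorem lattice_point {k : ℕ} (hk : 0 < k) {z : Fin (Nat.totient k) → ℝ}
    (hz : z ∈ cyclopolytope k) (hi : ∀ s, ∃ c : ℤ, z s = c) :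
    (∀ y : Fin (Nat.totient k) → ℝ, ∑ s, z s * y s = 0) ∨
      ∃ r : ℕ, ∀ y : Fin (Nat.totient k) → ℝ, ∑ s, z s * y s = pairing k y (X ^ r) := by
  choose c hc using hi
  obtain ⟨K, _, _, ζ, hζ⟩ := exists_field hk
  have hint : IsIntegral ℤ ζ := hζ.isIntegral hk
  set P : ℤ[X] := ∑ s : Fin (Nat.totient k), C (c s) * X ^ (s : ℕ) with hP
  have hmod : P %ₘ cyclotomic k ℤ = P := by
    rw [modByMonic_eq_self_iff (cyclotomic.monic k ℤ), degree_cyclotomic]
    exact degree_sum_fin_lt c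
  have hco : ∀ s : Fin (Nat.totient k), P.coeff s = c s := by
    intro s
    rw [hP, finsetSum_coeff, Finset.sum_eq_single s]
    · simp
    · intro t _ hts
      rw [coeff_C_mul_X_pow, if_neg fun h => hts (Fin.ext h.symm)]
    · simp
  have hpair : ∀ y, ∑ s, z s * y s = pairing k y P := by
    intro y
    simp only [pairing, hmod, hco, hc]
  have hdvd : ∀ Q : ℤ[X], aeval ζ Q = 0 → ∀ y, pairing k y Q = 0 := by
    intro Q hQ y
    apply pairing_of_dvd
    rw [cyclotomic_eq_minpoly hζ hk]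
    exact minpoly.isIntegrallyClosed_dvd hint hQ
  have hev : ∀ φ : K →+* ℂ, φ (aeval ζ P) = ev k (φ ζ) z := by
    intro φ
    show _ = ∑ s, ((z s : ℝ) : ℂ) * φ ζ ^ (s : ℕ)
    simp [hP, hc]
  by_cases h0 : aeval ζ P = 0
  · exact Or.inl fun y => by rw [hpair, hdvd P h0]
  · right
    have hI : IsIntegral ℤ (aeval ζ P) := by
      rw [hP, map_sum]
      refine IsIntegral.sum _ fun s _ => ?_
      rw [map_mul, map_pow, aeval_C, aeval_X]
      exact isIntegral_algebraMap.mul (hint.pow _)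
    obtain ⟨n, hn, hpow⟩ := NumberField.Embeddings.pow_eq_one_of_norm_le_one K ℂ h0 hI
      fun φ => by rw [hev]; exact norm_ev_le hk (hζ.map_of_injective φ.injective) hz
    obtain ⟨φ⟩ : Nonempty (K →+* ℂ) := inferInstance
    have hw := hζ.map_of_injective φ.injective
    have h1 : ‖ev k (φ ζ) z‖ = 1 := by
      rw [← hev]
      have h2 : ‖φ (aeval ζ P)‖ ^ n = 1 := by rw [← norm_pow, ← map_pow, hpow, map_one, norm_one]
      exact (pow_eq_one_iff_of_nonneg (norm_nonneg _) hn.ne').mp h2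
    obtain ⟨r, hr⟩ := ev_eq_pow hk hw hz h1
    refine ⟨r, fun y => ?_⟩
    have h3 : aeval ζ (P - X ^ r) = 0 := by
      rw [← hev, ← map_pow] at hr
      rw [map_sub, φ.injective hr]
      simp
    have h4 := pairing_add k y (P - X ^ r) (X ^ r)
    rw [sub_add_cancel, hdvd _ h3, zero_add] at h4
    rw [hpair, h4]

theorem per {k : ℕ} (hk : 2 ≤ k) {f : ℕ → ℝ} (hf : Rel k f) (x n : ℕ) : f (x + n * k) = f x := by
  simpa using (hf.periodic hk).nat_mul n x

theorem sum_ind {k q : ℕ} (hq : q.Prime) (hqk : ¬ q ∣ k) (m : ℕ) (c : ℝ) :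
    ∑ i ∈ range q, (if q ∣ m + i * k then c else 0) = c := by
  have := Fact.mk hq
  have hk0 : (k : ZMod q) ≠ 0 := fun h => hqk ((ZMod.natCast_eq_zero_iff k q).mp h)
  have hiff : ∀ i : ℕ, q ∣ m + i * k ↔ (i : ZMod q) = -(m : ZMod q) / k := by
    intro i
    rw [← ZMod.natCast_eq_zero_iff, eq_div_iff hk0]
    push_cast
    constructor <;> intro h <;> linear_combination h
  rw [Finset.sum_eq_single (-(m : ZMod q) / k).val]
  · rw [if_pos ((hiff _).mpr (ZMod.natCast_zmod_val _))]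
  · intro i hi hne
    rw [if_neg]
    intro h
    apply hne
    rw [← (hiff i).mp h, ZMod.val_natCast, Nat.mod_eq_of_lt (Finset.mem_range.mp hi)]
  · intro h
    exact absurd (Finset.mem_range.mpr (ZMod.val_lt _)) h

/-- Lifting functionals from `k` to `k q`. -/
theorem lift {k q : ℕ} (hk : 2 ≤ k) (hq : q.Prime) (h5 : q ∣ k ∨ 5 ≤ q) :
    ∃ (a : ℕ → ℕ) (w : ℕ → ℝ), (∀ r, w r = 1 ∨ (-1 / 4 ≤ w r ∧ w r ≤ 0)) ∧
      ∀ f : ℕ → ℝ, Rel k f →
        Rel (k * q) (fun r => f (a r) * w r) ∧ ∀ r, f (a (q * r)) * w (q * r) = f r := by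
  have hdiv : ∀ p c : ℕ, p.Prime → p * c * q / p = c * q := fun p c hp => by
    rw [mul_assoc, Nat.mul_div_cancel_left _ hp.pos]
  have hdvd : ∀ m i c : ℕ, q ∣ m + i * (c * q) ↔ q ∣ m := fun m i c =>
    Nat.dvd_add_left (Dvd.intro_left (i * c) (by ring))
  by_cases hqk : q ∣ k
  · refine ⟨fun r => r / q, fun r => if q ∣ r then 1 else 0, fun r => ?_, fun f hf => ⟨?_, ?_⟩⟩
    · by_cases h : q ∣ r <;> simp [h]
      norm_num
    · intro p hp hd m
      have hpk : p ∣ k := by
        rcases (Nat.Prime.dvd_mul hp).mp hd with h | h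
        · exact h
        · exact h.trans hqk
      have h0 := hf p hp hpk (m / q)
      obtain ⟨c, rfl⟩ := hpk
      rw [Nat.mul_div_cancel_left _ hp.pos] at h0
      have h1 : ∀ i, (m + i * (c * q)) / q = m / q + i * c := fun i => by
        rw [← mul_assoc, Nat.add_mul_div_right _ _ hq.pos]
      simp only [hdiv p c hp, hdvd, h1]
      rw [← Finset.sum_mul, h0, zero_mul]
    · intro r
      simp [Nat.mul_div_cancel_left _ hq.pos]
  · have hq5 : (5 : ℝ) ≤ q := by exact_mod_cast h5.resolve_left hqk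
    obtain ⟨u, hu⟩ : ∃ u, q * u % k = 1 := by
      obtain ⟨u, hu⟩ := Nat.exists_mul_mod_eq_one_of_coprime
        ((Nat.Prime.coprime_iff_not_dvd hq).mpr hqk) (by omega : 1 < k)
      exact ⟨u, by tauto⟩
    obtain ⟨t, ht⟩ : ∃ t, q * u = 1 + k * t := ⟨q * u / k, by
      have := Nat.mod_add_div (q * u) k
      omega⟩
    have hq1 : (0 : ℝ) < q - 1 := by linarith
    refine ⟨fun r => r * u, fun r => -1 / (q - 1) + if q ∣ r then (q : ℝ) / (q - 1) else 0,
      fun r => ?_, fun f hf => ⟨?_, ?_⟩⟩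
    · by_cases h : q ∣ r
      · left
        simp only [h, if_true]
        field_simp
        ring
      · right
        simp only [h, if_false, add_zero]
        constructor
        · rw [div_le_div_iff₀ (by norm_num) hq1]
          linarith
        · rw [div_nonpos_iff]
          right
          constructor <;> linarith
    · intro p hp hd m
      by_cases hpq : p = q
      · subst hpq
        have h1 : ∀ i, f ((m + i * k) * u) = f (m * u) := fun i => by
          rw [show (m + i * k) * u = m * u + i * u * k by ring, per hk hf]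
        simp only [Nat.mul_div_cancel _ hq.pos, h1]
        rw [← Finset.mul_sum, Finset.sum_add_distrib, sum_ind hq hqk, Finset.sum_const,
          Finset.card_range, nsmul_eq_mul]
        have : (p : ℝ) * (-1 / (p - 1)) + p / (p - 1) = 0 := by ring
        rw [this, mul_zero]
      · have hpk : p ∣ k := ((Nat.Prime.dvd_mul hp).mp hd).resolve_right
          fun h => hpq ((Nat.prime_dvd_prime_iff_eq hp hq).mp h)
        have h0 := hf p hp hpk (m * u)
        have h2 := per hk hf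
        obtain ⟨c, rfl⟩ := hpk
        rw [Nat.mul_div_cancel_left _ hp.pos] at h0
        have h1 : ∀ i, f ((m + i * (c * q)) * u) = f (m * u + i * c) := fun i => by
          rw [show (m + i * (c * q)) * u = m * u + i * c * (q * u) by ring, ht,
            show m * u + i * c * (1 + p * c * t) = m * u + i * c + i * c * t * (p * c) by ring, h2]
        simp only [hdiv p c hp, hdvd, h1]
        rw [← Finset.sum_mul, h0, zero_mul]
    · intro r
      have h1 : f (q * r * u) = f r := by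
        rw [show q * r * u = r * (q * u) by ring, ht,
          show r * (1 + k * t) = r + r * t * k by ring, per hk hf]
      simp only [h1, dvd_mul_right, if_true]
      field_simp
      ring

/-- The two functionals, lifted from `B` to `B t`. -/
theorem good {B : ℕ} (hB : 2 ≤ B) {f0 g0 : ℕ → ℝ} (hf0 : Rel B f0) (hg0 : Rel B g0)
    (hb0 : ∀ r, -2 ≤ f0 r ∧ f0 r ≤ 1 ∧ (f0 r = 1 → ∃ e : ℤ, g0 r = 2 * e)) (t : ℕ) (ht0 : 0 < t)
    (ht : ∀ q : ℕ, q.Prime → q ∣ t → q ∣ B ∨ 5 ≤ q) :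
    ∃ f g : ℕ → ℝ, Rel (B * t) f ∧ Rel (B * t) g ∧
      (∀ r, -2 ≤ f r ∧ f r ≤ 1 ∧ (f r = 1 → ∃ e : ℤ, g r = 2 * e)) ∧
      ∀ r, f (t * r) = f0 r ∧ g (t * r) = g0 r := by
  induction t using induction_on_primes with
  | zero => simp at ht0
  | one => exact ⟨f0, g0, by simpa using hf0, by simpa using hg0, hb0, fun r => by simp⟩
  | prime_mul q t hq ih =>
    have ht2 : 0 < t := Nat.pos_of_mul_pos_left ht0
    obtain ⟨f, g, hf, hg, hb, he⟩ := ih ht2 fun p hp hd => ht p hp (hd.mul_left q)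
    have h5 : q ∣ B * t ∨ 5 ≤ q :=
      (ht q hq (Dvd.intro t rfl)).imp_left fun h => h.mul_right t
    obtain ⟨a, w, hw, hl⟩ := lift (k := B * t) (by nlinarith) hq h5
    have e : B * (q * t) = B * t * q := by ring
    refine ⟨fun r => f (a r) * w r, fun r => g (a r) * w r, e ▸ (hl f hf).1, e ▸ (hl g hg).1,
      fun r => ?_, fun r => ?_⟩
    · obtain ⟨h1, h2, h3⟩ := hb (a r)
      rcases hw r with h | ⟨h, h'⟩
      · simp only [h, mul_one]
        exact ⟨h1, h2, h3⟩
      · have h4 : f (a r) * w r ≤ 1 / 2 := by nlinarith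
        refine ⟨by nlinarith, by linarith, fun h6 => ?_⟩
        have h7 : f (a r) * w r = 1 := h6
        linarith
    · simp only [mul_assoc, (hl f hf).2, (hl g hg).2]
      exact he r

theorem rel_mul {B t : ℕ} {h : ℕ → ℝ} (hh : Rel (B * t) h) : Rel B fun r => h (t * r) := by
  intro p hp hd m
  have h0 := hh p hp (hd.mul_right t) (t * m)
  obtain ⟨c, hc⟩ := hd
  rw [hc, mul_assoc, Nat.mul_div_cancel_left _ hp.pos] at h0
  rw [hc, Nat.mul_div_cancel_left _ hp.pos, ← h0]
  exact Finset.sum_congr rfl fun i _ => congrArg h (by ring)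

/-- From a certificate for `B` to the failure of normality for `B t`. -/
theorem main {B : ℕ} (hB : 2 ≤ B) {f0 g0 : ℕ → ℝ} (c T : ℕ → ℤ)
    (hf0 : Rel B f0) (hg0 : Rel B g0)
    (hb0 : ∀ r, -2 ≤ f0 r ∧ f0 r ≤ 1 ∧ (f0 r = 1 → ∃ e : ℤ, g0 r = 2 * e))
    (hc0 : ∀ r, 0 ≤ c r) (hcf : ∀ r, (c r : ℝ) * f0 r = c r)
    (hhalf : ∀ h : ℕ → ℝ, Rel B h →
      ∑ r ∈ range B, (c r : ℝ) * h r = -2 * ∑ r ∈ range B, (T r : ℝ) * h r)
    (N : ℤ) (hfT : ∑ r ∈ range B, (T r : ℝ) * f0 r = N)
    (e0 : ℤ) (hgT : ∑ r ∈ range B, (T r : ℝ) * g0 r = 2 * e0 + 1)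
    (t : ℕ) (ht0 : 0 < t) (ht : ∀ q : ℕ, q.Prime → q ∣ t → q ∣ B ∨ 5 ≤ q) :
    ∃ (n : ℕ) (x : Fin (Nat.totient (B * t)) → ℝ), (∀ s, ∃ c : ℤ, x s = (c : ℝ)) ∧
      (∃ y ∈ cyclopolytope (B * t), x = (n : ℝ) • y) ∧
      ¬ ∃ z : Fin n → Fin (Nat.totient (B * t)) → ℝ,
        (∀ i, z i ∈ cyclopolytope (B * t) ∧ ∀ s, ∃ c : ℤ, z i s = (c : ℝ)) ∧ x = ∑ i, z i := by
  have hk : 2 ≤ B * t := by nlinarith
  have hc0' : ∀ r, (0 : ℝ) ≤ c r := fun r => by exact_mod_cast hc0 r
  have hcs := hhalf f0 hf0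
  simp only [hcf, hfT] at hcs
  have hN : N ≤ 0 := by
    have h1 : (0 : ℝ) ≤ ∑ r ∈ range B, (c r : ℝ) := Finset.sum_nonneg fun r _ => hc0' r
    have h2 : (N : ℝ) ≤ 0 := by linarith
    exact_mod_cast h2
  obtain ⟨n, hn⟩ : ∃ n : ℕ, N = -(n : ℤ) := ⟨(-N).toNat, by omega⟩
  subst hn
  push_cast at hcs hfT
  have hn' : (n : ℝ) ≠ 0 := by
    intro h0
    rw [h0, neg_zero, mul_zero, Finset.sum_eq_zero_iff_of_nonneg fun r _ => hc0' r] at hcs
    have h1 := hhalf g0 hg0
    rw [hgT, Finset.sum_eq_zero fun r hr => by rw [hcs r hr, zero_mul]] at h1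
    have h2 : (0 : ℤ) = -2 * (2 * e0 + 1) := by exact_mod_cast h1
    omega
  obtain ⟨mid, hmid⟩ : ∃ mid : Fin (Nat.totient (B * t)) → ℝ,
      mid = ∑ r ∈ range B, ((c r : ℝ) / (2 * n)) • rootVec (B * t) (t * r) := ⟨_, rfl⟩
  have hmem : mid ∈ cyclopolytope (B * t) := by
    rw [hmid]
    refine (convex_convexHull ℝ _).sum_mem (fun r _ => div_nonneg (hc0' r) (by positivity)) ?_
      fun r hr => ?_
    · rw [← Finset.sum_div, hcs]
      field_simp
    · refine subset_convexHull ℝ _ ⟨t * r, ?_, rfl⟩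
      have := Finset.mem_range.mp hr
      nlinarith
  have hpair : ∀ y : Fin (Nat.totient (B * t)) → ℝ, ∑ s, ((n : ℝ) • mid) s * y s =
      -∑ r ∈ range B, (T r : ℝ) * pairing (B * t) y (X ^ (t * r)) := by
    intro y
    have h := hhalf _ (rel_mul (rel_pairing hk y))
    have h2 : ∑ s, ((n : ℝ) • mid) s * y s =
        1 / 2 * ∑ r ∈ range B, (c r : ℝ) * pairing (B * t) y (X ^ (t * r)) := by
      simp only [hmid, Pi.smul_apply, Finset.sum_apply, smul_eq_mul, Finset.mul_sum,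
        Finset.sum_mul]
      rw [Finset.sum_comm]
      refine Finset.sum_congr rfl fun r _ => ?_
      show _ = 1 / 2 * ((c r : ℝ) * ∑ s, rootVec (B * t) (t * r) s * y s)
      rw [Finset.mul_sum, Finset.mul_sum]
      exact Finset.sum_congr rfl fun s _ => by field_simp
    rw [h2, h]
    ring
  refine ⟨n, (n : ℝ) • mid, fun s => ?_, ⟨mid, hmem, rfl⟩, ?_⟩
  · have h := hpair (Pi.single s 1)
    have h2 : ∀ r : ℕ, pairing (B * t) (Pi.single s 1) (X ^ r) =
        ((((X : ℤ[X]) ^ r %ₘ cyclotomic (B * t) ℤ).coeff s : ℤ) : ℝ) := by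
      intro r
      simp [pairing, Pi.single_apply]
    simp only [h2] at h
    refine ⟨-∑ r ∈ range B, T r * ((X : ℤ[X]) ^ (t * r) %ₘ cyclotomic (B * t) ℤ).coeff s, ?_⟩
    push_cast
    rw [← h]
    simp [Pi.single_apply]
  · rintro ⟨z, hz, hx⟩
    obtain ⟨f, g, hf, hg, hb, he⟩ := good hB hf0 hg0 hb0 t ht0 ht
    have hf' := pairing_of_rel hk hf
    have hg' := pairing_of_rel hk hg
    have key : ∀ i, ∑ s, z i s * f s ≤ 1 ∧
        (∑ s, z i s * f s = 1 → ∃ e : ℤ, ∑ s, z i s * g s = 2 * e) := by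
      intro i
      rcases lattice_point (by omega) (hz i).1 (hz i).2 with h | ⟨r, h⟩
      · rw [h fun s => f s]
        norm_num
      · rw [h fun s => f s, h fun s => g s, hf', hg']
        exact (hb r).2
    have hs : ∀ y : Fin (Nat.totient (B * t)) → ℝ, ∑ i, ∑ s, z i s * y s =
        -∑ r ∈ range B, (T r : ℝ) * pairing (B * t) y (X ^ (t * r)) := by
      intro y
      rw [← hpair, hx, Finset.sum_comm]
      simp only [Finset.sum_apply, Finset.sum_mul]
    have hA := hs fun s => f s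
    have hB' := hs fun s => g s
    simp only [hf', fun r => (he r).1, hfT] at hA
    simp only [hg', fun r => (he r).2, hgT] at hB'
    have h3 : ∀ i ∈ (univ : Finset (Fin n)), ∑ s, z i s * f s = 1 :=
      (Finset.sum_eq_sum_iff_of_le fun i _ => (key i).1).mp (by rw [hA]; simp)
    choose e he' using fun i => (key i).2 (h3 i (Finset.mem_univ i))
    simp only [he'] at hB'
    have h4 : ∑ i, 2 * e i = -(2 * e0 + 1) := by exact_mod_cast hB'
    rw [← Finset.mul_sum] at h4
    omega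

theorem split {M : Type} [AddCommGroup M] (a b : ℕ) (φ : ℕ → M) :
    ∑ n ∈ range (a * b), φ n = ∑ m ∈ range a, ∑ i ∈ range b, φ (m + i * a) := by
  induction b with
  | zero => simp
  | succ b ih =>
    rw [Nat.mul_succ, Finset.sum_range_add, ih, ← Finset.sum_add_distrib]
    refine Finset.sum_congr rfl fun m _ => ?_
    rw [Finset.sum_range_succ, add_comm (a * b), mul_comm a b]

theorem bij {M : Type} [AddCommGroup M] {q k : ℕ} (hq : q.Prime) (hqk : ¬ q ∣ k) (m : ℕ)
    (φ : ℕ → M) : ∑ i ∈ range q, φ ((m + i * k) % q) = ∑ j ∈ range q, φ j := by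
  have hinj : Set.InjOn (fun i => (m + i * k) % q) (range q : Finset ℕ) := by
    intro i hi j hj hij
    have h1 : i * k ≡ j * k [MOD q] := Nat.ModEq.add_left_cancel' m hij
    have h2 := Nat.ModEq.cancel_right_of_coprime ((Nat.Prime.coprime_iff_not_dvd hq).mpr hqk) h1
    exact h2.eq_of_lt_of_lt (by simpa using hi) (by simpa using hj)
  have him : (range q).image (fun i => (m + i * k) % q) = range q := by
    apply Finset.eq_of_subset_of_card_le
    · intro x hx
      obtain ⟨i, -, rfl⟩ := Finset.mem_image.mp hx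
      exact Finset.mem_range.mpr (Nat.mod_lt _ hq.pos)
    · rw [Finset.card_image_of_injOn hinj]
  rw [← Finset.sum_image (f := φ) hinj, him]

/-- The type of an index: itself below `A`, then alternately `A` and `A + 1`. -/
def ty (A a : ℕ) : ℕ := if a < A then a else A + (a - A) % 2

theorem ty_lt (A a : ℕ) : ty A a < A + 2 := by
  unfold ty
  split_ifs <;> omega

theorem lin {M : Type} [AddCommGroup M] {q k A : ℕ} (hq : q.Prime) (hqk : ¬ q ∣ k)
    (hA : ∃ α, q = A + 2 * α) (m : ℕ) (ψ : ℕ → M) (h : ψ A + ψ (A + 1) = 0) :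
    ∑ i ∈ range q, ψ (ty A ((m + i * k) % q)) = ∑ a ∈ range A, ψ a := by
  rw [bij hq hqk m fun j => ψ (ty A j)]
  obtain ⟨α, rfl⟩ := hA
  clear hq hqk
  induction α with
  | zero => exact Finset.sum_congr rfl fun a ha => by simp [ty, Finset.mem_range.mp ha]
  | succ α ih =>
    have h1 : ty A (A + 2 * α) = A := by unfold ty; split_ifs <;> omega
    have h2 : ty A (A + 2 * α + 1) = A + 1 := by unfold ty; split_ifs <;> omega
    rw [show A + 2 * (α + 1) = A + 2 * α + 1 + 1 by ring, Finset.sum_range_succ,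
      Finset.sum_range_succ, ih, h1, h2, add_assoc, h, add_zero]

theorem hmod {d s : ℕ} (h : d ∣ s) (m i : ℕ) : (m + i * s) % d = m % d := by
  obtain ⟨c, rfl⟩ := h
  rw [show m + i * (d * c) = m + d * (i * c) by ring, Nat.add_mul_mod_self_left]

theorem zero_line {a l k : ℕ} (hl : l.Prime) (hk : k = a * l) {h : ℕ → ℝ} (hh : Rel k h)
    (w : ℕ → ℝ) (hw : ∀ m i, w (m + i * a) = w m) : ∑ n ∈ range k, w n * h n = 0 := by
  subst hk
  rw [split]
  refine Finset.sum_eq_zero fun m _ => ?_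
  have h0 := hh l hl (Dvd.intro_left a rfl) m
  rw [Nat.mul_div_cancel _ hl.pos] at h0
  simp only [hw]
  rw [← Finset.mul_sum, h0, mul_zero]

/-- The new indices cancel in pairs. -/
def Canc {M : Type} [AddCommGroup M] (e : ℕ) (W : ℕ → ℕ → ℕ → ℕ → M) : Prop :=
  (∀ x < e, ∀ j < 7, ∀ k < 9, W x 3 j k + W x 4 j k = 0) ∧
    (∀ x < e, ∀ i < 5, ∀ k < 9, W x i 5 k + W x i 6 k = 0) ∧
    ∀ x < e, ∀ i < 5, ∀ j < 7, W x i j 7 + W x i j 8 = 0

/-- The sums over the old indices vanish. -/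
def Old (e : ℕ) (W : ℕ → ℕ → ℕ → ℕ → ℤ) : Prop :=
  (∀ x < e, ∀ j < 7, ∀ k < 9, ∑ i ∈ range 3, W x i j k = 0) ∧
    (∀ x < e, ∀ i < 5, ∀ k < 9, ∑ j ∈ range 5, W x i j k = 0) ∧
    (∀ x < e, ∀ i < 5, ∀ j < 7, ∑ k ∈ range 7, W x i j k = 0) ∧
    (e = 1 ∨ ∀ i < 5, ∀ j < 7, ∀ k < 9, W 0 i j k + W 1 i j k = 0)

/-- A typed table read on exponents. -/
def rd {M : Type} (e p q r : ℕ) (W : ℕ → ℕ → ℕ → ℕ → M) (n : ℕ) : M :=
  W (n % e) (ty 3 (n % p)) (ty 5 (n % q)) (ty 7 (n % r))

/-- The standing hypotheses on the primes. -/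
structure Hyp (e p q r : ℕ) : Prop where
  he : e = 1 ∨ e = 2
  hp : p.Prime
  hq : q.Prime
  hr : r.Prime
  ap : ∃ α, p = 3 + 2 * α
  aq : ∃ α, q = 5 + 2 * α
  ar : ∃ α, r = 7 + 2 * α
  pq : p < q
  qr : q < r

theorem ndvd {l e a b : ℕ} (hl : l.Prime) (he : e = 1 ∨ e = 2) (h3 : 3 ≤ l) (ha : a.Prime)
    (hb : b.Prime) (h1 : l ≠ a) (h2 : l ≠ b) : ¬ l ∣ e * a * b ∧ ¬ l ∣ e * a ∧ ¬ l ∣ e := by
  have h0 : ¬ l ∣ e := fun h => by
    have := Nat.le_of_dvd (by omega) h
    omega
  simp [hl.dvd_mul, Nat.prime_dvd_prime_iff_eq hl ha, Nat.prime_dvd_prime_iff_eq hl hb, h0, h1, h2]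

theorem Hyp.nd {e p q r : ℕ} (H : Hyp e p q r) :
    (¬ p ∣ e * q * r ∧ ¬ p ∣ e * q ∧ ¬ p ∣ e) ∧ (¬ q ∣ e * p * r ∧ ¬ q ∣ e * p ∧ ¬ q ∣ e) ∧
      (¬ r ∣ e * p * q ∧ ¬ r ∣ e * p ∧ ¬ r ∣ e) := by
  obtain ⟨he, hp, hq, hr, ⟨a, ap⟩, -, -, pq, qr⟩ := H
  exact ⟨ndvd hp he (by omega) hq hr (by omega) (by omega),
    ndvd hq he (by omega) hp hr (by omega) (by omega),
    ndvd hr he (by omega) hp hq (by omega) (by omega)⟩

theorem rel_rd {e p q r : ℕ} (H : Hyp e p q r) {W : ℕ → ℕ → ℕ → ℕ → ℤ} (hC : Canc e W)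
    (hO : Old e W) (d : ℝ) : Rel (e * p * q * r) fun n => ((rd e p q r W n : ℤ) : ℝ) / d := by
  intro l hl hd m
  show ∑ i ∈ range l, ((rd e p q r W (m + i * (e * p * q * r / l)) : ℤ) : ℝ) / d = 0
  rw [← Finset.sum_div, div_eq_zero_iff]
  left
  have hx : m % e < e := Nat.mod_lt _ (by have := H.he; omega)
  suffices h : ∑ i ∈ range l, rd e p q r W (m + i * (e * p * q * r / l)) = 0 by exact_mod_cast h
  simp only [hl.dvd_mul, Nat.prime_dvd_prime_iff_eq hl H.hp, Nat.prime_dvd_prime_iff_eq hl H.hq,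
    Nat.prime_dvd_prime_iff_eq hl H.hr] at hd
  rcases hd with ((hd | rfl) | rfl) | rfl
  · have h2 : e = 2 := by
      rcases H.he with h | h
      · exact absurd (h ▸ hd) hl.not_dvd_one
      · exact h
    subst h2
    obtain rfl := (Nat.prime_dvd_prime_iff_eq hl Nat.prime_two).mp hd
    have hn : ¬ 2 ∣ p * q * r := by
      obtain ⟨a, rfl⟩ := H.ap
      obtain ⟨b, rfl⟩ := H.aq
      obtain ⟨c, rfl⟩ := H.ar
      simp only [hl.dvd_mul]
      omega
    rw [show 2 * p * q * r / 2 = p * q * r by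
      rw [mul_assoc, mul_assoc, Nat.mul_div_cancel_left _ hl.pos, mul_assoc]]
    simp only [rd, hmod (show p ∣ p * q * r from ⟨q * r, by ring⟩),
      hmod (show q ∣ p * q * r from ⟨p * r, by ring⟩),
      hmod (show r ∣ p * q * r from ⟨p * q, by ring⟩)]
    rw [bij hl hn m fun x => W x (ty 3 (m % p)) (ty 5 (m % q)) (ty 7 (m % r))]
    simpa [Finset.sum_range_succ] using
      hO.2.2.2.resolve_left (by norm_num) _ (ty_lt 3 _) _ (ty_lt 5 _) _ (ty_lt 7 _)
  · rw [show e * l * q * r = e * q * r * l by ring, Nat.mul_div_cancel _ hl.pos]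
    simp only [rd, hmod (show e ∣ e * q * r from ⟨q * r, by ring⟩),
      hmod (show q ∣ e * q * r from ⟨e * r, by ring⟩),
      hmod (show r ∣ e * q * r from ⟨e * q, by ring⟩)]
    rw [lin hl H.nd.1.1 H.ap m (fun i => W (m % e) i (ty 5 (m % q)) (ty 7 (m % r)))
      (hC.1 _ hx _ (ty_lt 5 _) _ (ty_lt 7 _))]
    exact hO.1 _ hx _ (ty_lt 5 _) _ (ty_lt 7 _)
  · rw [show e * p * l * r = e * p * r * l by ring, Nat.mul_div_cancel _ hl.pos]
    simp only [rd, hmod (show e ∣ e * p * r from ⟨p * r, by ring⟩),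
      hmod (show p ∣ e * p * r from ⟨e * r, by ring⟩),
      hmod (show r ∣ e * p * r from ⟨e * p, by ring⟩)]
    rw [lin hl H.nd.2.1.1 H.aq m (fun j => W (m % e) (ty 3 (m % p)) j (ty 7 (m % r)))
      (hC.2.1 _ hx _ (ty_lt 3 _) _ (ty_lt 7 _))]
    exact hO.2.1 _ hx _ (ty_lt 3 _) _ (ty_lt 7 _)
  · rw [Nat.mul_div_cancel _ hl.pos]
    simp only [rd, hmod (show e ∣ e * p * q from ⟨p * q, by ring⟩),
      hmod (show p ∣ e * p * q from ⟨e * q, by ring⟩),
      hmod (show q ∣ e * p * q from ⟨e * p, by ring⟩)]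
    rw [lin hl H.nd.2.2.1 H.ar m (fun k => W (m % e) (ty 3 (m % p)) (ty 5 (m % q)) k)
      (hC.2.2 _ hx _ (ty_lt 3 _) _ (ty_lt 5 _))]
    exact hO.2.2.1 _ hx _ (ty_lt 3 _) _ (ty_lt 5 _)

theorem sum_rd {M : Type} [AddCommGroup M] {e p q r : ℕ} (H : Hyp e p q r)
    {W : ℕ → ℕ → ℕ → ℕ → M} (hC : Canc e W) :
    ∑ n ∈ range (e * p * q * r), rd e p q r W n =
      ∑ x ∈ range e, ∑ i ∈ range 3, ∑ j ∈ range 5, ∑ k ∈ range 7, W x i j k := by
  have hx : ∀ m, m % e < e := fun m => Nat.mod_lt _ (by have := H.he; omega)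
  have s1 : ∑ n ∈ range (e * p * q * r), rd e p q r W n = ∑ m ∈ range (e * p * q),
      ∑ k ∈ range 7, W (m % e) (ty 3 (m % p)) (ty 5 (m % q)) k := by
    rw [split]
    refine Finset.sum_congr rfl fun m _ => ?_
    simp only [rd, hmod (show e ∣ e * p * q from ⟨p * q, by ring⟩),
      hmod (show p ∣ e * p * q from ⟨e * q, by ring⟩),
      hmod (show q ∣ e * p * q from ⟨e * p, by ring⟩)]
    exact lin H.hr H.nd.2.2.1 H.ar m (fun k => W (m % e) (ty 3 (m % p)) (ty 5 (m % q)) k)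
      (hC.2.2 _ (hx m) _ (ty_lt 3 _) _ (ty_lt 5 _))
  have s2 : ∑ m ∈ range (e * p * q), ∑ k ∈ range 7, W (m % e) (ty 3 (m % p)) (ty 5 (m % q)) k =
      ∑ m ∈ range (e * p), ∑ j ∈ range 5, ∑ k ∈ range 7, W (m % e) (ty 3 (m % p)) j k := by
    rw [split]
    refine Finset.sum_congr rfl fun m _ => ?_
    simp only [hmod (show e ∣ e * p from ⟨p, rfl⟩), hmod (show p ∣ e * p from ⟨e, by ring⟩)]
    refine lin H.hq H.nd.2.1.2.1 H.aq m
      (fun j => ∑ k ∈ range 7, W (m % e) (ty 3 (m % p)) j k) ?_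
    rw [← Finset.sum_add_distrib]
    exact Finset.sum_eq_zero fun k hk =>
      hC.2.1 _ (hx m) _ (ty_lt 3 _) _ (by have := Finset.mem_range.mp hk; omega)
  rw [s1, s2, split]
  refine Finset.sum_congr rfl fun m hm => ?_
  simp only [hmod (dvd_refl e), Nat.mod_eq_of_lt (Finset.mem_range.mp hm)]
  refine lin H.hp H.nd.1.2.2 H.ap m (fun i => ∑ j ∈ range 5, ∑ k ∈ range 7, W m i j k) ?_
  rw [← Finset.sum_add_distrib]
  refine Finset.sum_eq_zero fun j hj => ?_
  rw [← Finset.sum_add_distrib]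
  exact Finset.sum_eq_zero fun k hk => hC.1 _ (Finset.mem_range.mp hm) _
    (by have := Finset.mem_range.mp hj; omega) _ (by have := Finset.mem_range.mp hk; omega)

/-- The number of chosen cosets through a point. -/
def cn (L0 L1 L2 L3 : ℕ → ℕ → ℕ → ℤ) (x i j k : ℕ) : ℤ := L0 i j k + L1 x j k + L2 x i k + L3 x i j

theorem cert {e p q r : ℕ} (H : Hyp e p q r) (F G : ℕ → ℕ → ℕ → ℕ → ℤ)
    (L0 L1 L2 L3 : ℕ → ℕ → ℕ → ℤ) (h0 : e = 2 ∨ L0 = fun _ _ _ => 0)
    (cF : Canc e F) (oF : Old e F) (cG : Canc e G) (oG : Old e G)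
    (hb1 : ∀ x < e, ∀ i < 5, ∀ j < 7, ∀ k < 9, -4 ≤ F x i j k ∧ F x i j k ≤ 2)
    (hb2 : ∀ x < e, ∀ i < 5, ∀ j < 7, ∀ k < 9, F x i j k ≠ 2 ∨ G x i j k % 2 = 0)
    (hb3 : ∀ x < e, ∀ i < 5, ∀ j < 7, ∀ k < 9, cn L0 L1 L2 L3 x i j k % 2 = 0 ∨ F x i j k = 2)
    (pF : Canc e fun x i j k => ((cn L0 L1 L2 L3 x i j k / 2 * F x i j k : ℤ) : ZMod 2))
    (pG : Canc e fun x i j k => ((cn L0 L1 L2 L3 x i j k / 2 * G x i j k : ℤ) : ZMod 2))
    (sF : ∑ x ∈ range e, ∑ i ∈ range 3, ∑ j ∈ range 5, ∑ k ∈ range 7,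
      ((cn L0 L1 L2 L3 x i j k / 2 * F x i j k : ℤ) : ZMod 2) = 0)
    (sG : ∑ x ∈ range e, ∑ i ∈ range 3, ∑ j ∈ range 5, ∑ k ∈ range 7,
      ((cn L0 L1 L2 L3 x i j k / 2 * G x i j k : ℤ) : ZMod 2) = 1)
    (t : ℕ) (ht0 : 0 < t) (ht : ∀ l : ℕ, l.Prime → l ∣ t → l ∣ e * p * q * r ∨ 5 ≤ l) :
    ∃ (n : ℕ) (x : Fin (Nat.totient (e * p * q * r * t)) → ℝ), (∀ s, ∃ c : ℤ, x s = (c : ℝ)) ∧
      (∃ y ∈ cyclopolytope (e * p * q * r * t), x = (n : ℝ) • y) ∧
      ¬ ∃ z : Fin n → Fin (Nat.totient (e * p * q * r * t)) → ℝ,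
        (∀ i, z i ∈ cyclopolytope (e * p * q * r * t) ∧ ∀ s, ∃ c : ℤ, z i s = (c : ℝ)) ∧
          x = ∑ i, z i := by
  have he : 0 < e := by have := H.he; omega
  have hB : 2 ≤ e * p * q * r :=
    H.hr.two_le.trans (Nat.le_mul_of_pos_left _ (Nat.mul_pos (Nat.mul_pos he H.hp.pos) H.hq.pos))
  set C := rd e p q r (cn L0 L1 L2 L3) with hC
  have hb' : ∀ n, -4 ≤ rd e p q r F n ∧ rd e p q r F n ≤ 2 ∧
      (rd e p q r F n = 2 → rd e p q r G n % 2 = 0) ∧ (C n % 2 = 0 ∨ rd e p q r F n = 2) :=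
    fun n => ⟨(hb1 _ (Nat.mod_lt _ he) _ (ty_lt 3 _) _ (ty_lt 5 _) _ (ty_lt 7 _)).1,
      (hb1 _ (Nat.mod_lt _ he) _ (ty_lt 3 _) _ (ty_lt 5 _) _ (ty_lt 7 _)).2,
      fun h => (hb2 _ (Nat.mod_lt _ he) _ (ty_lt 3 _) _ (ty_lt 5 _) _ (ty_lt 7 _)).resolve_left
        (not_not.mpr h), hb3 _ (Nat.mod_lt _ he) _ (ty_lt 3 _) _ (ty_lt 5 _) _ (ty_lt 7 _)⟩
  have eF := (sum_rd H pF).trans sF
  have eG := (sum_rd H pG).trans sG
  have eF' : ((∑ n ∈ range (e * p * q * r), C n / 2 * rd e p q r F n : ℤ) : ZMod 2) = 0 := by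
    rw [Int.cast_sum]; exact eF
  have eG' : ((∑ n ∈ range (e * p * q * r), C n / 2 * rd e p q r G n - 1 : ℤ) : ZMod 2) = 0 := by
    rw [Int.cast_sub, Int.cast_sum, Int.cast_one, sub_eq_zero]; exact eG
  obtain ⟨N, hN⟩ := (ZMod.intCast_zmod_eq_zero_iff_dvd _ 2).mp eF'
  obtain ⟨e0, he0⟩ := (ZMod.intCast_zmod_eq_zero_iff_dvd _ 2).mp eG'
  refine main hB (fun n => C n % 2) (fun n => C n / 2) (rel_rd H cF oF 2) (rel_rd H cG oG 1)
    (fun n => ?_) (fun n => by omega) (fun n => ?_) (fun h hh => ?_) N ?_ e0 ?_ t ht0 ht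
  · obtain ⟨h1, h2, h3, -⟩ := hb' n
    have h1' : (-4 : ℝ) ≤ (rd e p q r F n : ℤ) := by exact_mod_cast h1
    have h2' : ((rd e p q r F n : ℤ) : ℝ) ≤ 2 := by exact_mod_cast h2
    refine ⟨by linarith, by linarith, fun h => ⟨rd e p q r G n / 2, ?_⟩⟩
    have h7 : ((rd e p q r F n : ℤ) : ℝ) = 2 := by linarith
    have h5 := h3 (by exact_mod_cast h7)
    have h6 : rd e p q r G n = 2 * (rd e p q r G n / 2) := by omega
    rw [div_one]
    exact_mod_cast h6
  · rcases (hb' n).2.2.2 with h | h <;> simp [h]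
  · have z1 := zero_line H.hp (show e * p * q * r = e * q * r * p by ring) hh
      (fun n => (L1 (n % e) (ty 5 (n % q)) (ty 7 (n % r)) : ℝ)) fun m i => by
        simp only [hmod (show e ∣ e * q * r from ⟨q * r, by ring⟩),
          hmod (show q ∣ e * q * r from ⟨e * r, by ring⟩),
          hmod (show r ∣ e * q * r from ⟨e * q, by ring⟩)]
    have z2 := zero_line H.hq (show e * p * q * r = e * p * r * q by ring) hh
      (fun n => (L2 (n % e) (ty 3 (n % p)) (ty 7 (n % r)) : ℝ)) fun m i => by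
        simp only [hmod (show e ∣ e * p * r from ⟨p * r, by ring⟩),
          hmod (show p ∣ e * p * r from ⟨e * r, by ring⟩),
          hmod (show r ∣ e * p * r from ⟨e * p, by ring⟩)]
    have z3 := zero_line H.hr (show e * p * q * r = e * p * q * r from rfl) hh
      (fun n => (L3 (n % e) (ty 3 (n % p)) (ty 5 (n % q)) : ℝ)) fun m i => by
        simp only [hmod (show e ∣ e * p * q from ⟨p * q, by ring⟩),
          hmod (show p ∣ e * p * q from ⟨e * q, by ring⟩),
          hmod (show q ∣ e * p * q from ⟨e * p, by ring⟩)]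
    have z0 : ∑ n ∈ range (e * p * q * r),
        (L0 (ty 3 (n % p)) (ty 5 (n % q)) (ty 7 (n % r)) : ℝ) * h n = 0 := by
      rcases h0 with h0 | h0
      · exact zero_line Nat.prime_two (show e * p * q * r = p * q * r * 2 by rw [h0]; ring) hh
          (fun n => (L0 (ty 3 (n % p)) (ty 5 (n % q)) (ty 7 (n % r)) : ℝ)) fun m i => by
            simp only [hmod (show p ∣ p * q * r from ⟨q * r, by ring⟩),
              hmod (show q ∣ p * q * r from ⟨p * r, by ring⟩),
              hmod (show r ∣ p * q * r from ⟨p * q, by ring⟩)]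
      · simp [h0]
    have z : ∑ n ∈ range (e * p * q * r), (C n : ℝ) * h n = 0 := by
      simp only [hC, rd, cn, Int.cast_add, add_mul, Finset.sum_add_distrib, z0, z1, z2, z3,
        add_zero]
    have hd : ∀ n, ((C n % 2 : ℤ) : ℝ) * h n = C n * h n - 2 * (((C n / 2 : ℤ) : ℝ) * h n) := by
      intro n
      have h1 : C n % 2 = C n - 2 * (C n / 2) := by omega
      rw [h1]
      push_cast
      ring
    simp only [hd]
    rw [Finset.sum_sub_distrib, z, ← Finset.mul_sum]
    ring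
  · have h1 : ∑ n ∈ range (e * p * q * r), ((C n / 2 : ℤ) : ℝ) * (rd e p q r F n : ℤ) = 2 * N := by
      exact_mod_cast hN
    simp only [← mul_div_assoc]
    rw [← Finset.sum_div, h1]
    ring
  · have h1 : ∑ n ∈ range (e * p * q * r), ((C n / 2 : ℤ) : ℝ) * (rd e p q r G n : ℤ) - 1 =
        2 * e0 := by exact_mod_cast he0
    simp only [div_one]
    linarith

/-- Twice the facet functional. -/
def oF : List ℕ :=
  [20292062228946, 20292190159374, 16029437020690, 16027092601360, 18157597573710,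
   16027293794894, 20292058038738, 18155382917714, 16029240019410, 20292129337932,
   20292190161358, 16029437147666, 18159673821650, 18159678011982, 16031582603788,
   18157597571664, 18157461391826, 18159744987730, 20291993029072, 20292060133904,
   16027291699728, 16027293794894, 16027157482066, 20292060133904, 20292194351566,
   18159673821650, 18159673821650, 18159678011982, 20292058038738, 20292194351566,
   16027291699728, 16027157482066, 18159678011982, 18159678011982, 18159673821650]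

/-- The parity functional. -/
def oG : List ℕ :=
  [18159675916816, 18157528433201, 18158602175024, 18159675916816, 18162897142223,
   18159675916816, 18159675916816, 18159675916816, 18158602175024, 18159675916816,
   18159675916816, 18160749658608, 18159675916816, 18159675916816, 18159675916816,
   18162897142223, 18160749658608, 18159675916816, 18155380949617, 18159675916816,
   18159675916816, 18159675916816, 18159675916816, 18159675916816, 18159675916816,
   18159675916816, 18159675916816, 18159675916816, 18159675916816, 18159675916816,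
   18159675916816, 18159675916816, 18159675916816, 18159675916816, 18159675916816]

/-- The cosets in the first direction. -/
def o1 : List ℕ :=
  [386, 276, 216, 248, 110, 110, 125]

/-- The cosets in the second direction. -/
def o2 : List ℕ :=
  [124, 400, 294, 400, 387]

/-- The cosets in the third direction. -/
def o3 : List ℕ :=
  [1, 112, 76, 112, 126]

/-- Twice the facet functional. -/
def eF : List ℕ :=
  [19226973128271, 16031552061906, 20290015378926, 19222680355407, 16027158659570,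
   19226973128271, 17092378705361, 19224762827279, 18159709469232, 17092307372625,
   16029441276370, 20292158638574, 19224762827279, 17094589006353, 16027291794898,
   20287766219310, 17096704998897, 19226906118671, 18159710452304, 16027291794898,
   20292060038734, 19226973128271, 16031552061906, 20290015378926, 19222680355407,
   16027158659570, 19226973128271, 17092378705361, 17092378705361, 20287799771726,
   16029336454706, 17096671478225, 20292193174062, 17092378705361, 19226973128271,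
   17092378705361, 20287799771726, 16029336454706, 17096671478225, 20292193174062,
   17092378705361, 19226973128271, 17094589006353, 18159642364400, 19227044461007,
   20289910557262, 16027193195058, 17094589006353, 19224762827279, 20292060038734,
   16031585614322, 19222646834735, 17092445714961, 18159641381328, 20292060038734,
   16027291794898, 17092378705361, 20287799771726, 16029336454706, 17096671478225,
   20292193174062, 17092378705361, 19226973128271, 19226973128271, 16031552061906,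
   20290015378926, 19222680355407, 16027158659570, 19226973128271, 17092378705361]

/-- The parity functional. -/
def eG : List ℕ :=
  [18157528434193, 18159675916816, 18157528466960, 18157528465937, 18166118300174,
   18159675916816, 18159675916816, 18157528465937, 18159675916816, 18157528465937,
   18159675916816, 18163970818574, 18159675916816, 18159675916816, 18163970850318,
   18159675916816, 18163970817551, 18161823367695, 18148938631700, 18159675916816,
   18159675916816, 18159675916816, 18159675916816, 18159675916816, 18159675916816,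
   18159675916816, 18159675916816, 18159675916816, 18159675916816, 18159675916816,
   18159675916816, 18159675916816, 18159675916816, 18159675916816, 18159675916816,
   18161823399439, 18159675916816, 18161823366672, 18161823367695, 18153233533458,
   18159675916816, 18159675916816, 18161823367695, 18159675916816, 18161823367695,
   18159675916816, 18155381015058, 18159675916816, 18159675916816, 18155380983314,
   18159675916816, 18155381016081, 18157528465937, 18170413201932, 18159675916816,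
   18159675916816, 18159675916816, 18159675916816, 18159675916816, 18159675916816,
   18159675916816, 18159675916816, 18159675916816, 18159675916816, 18159675916816,
   18159675916816, 18159675916816, 18159675916816, 18159675916816, 18159675916816]

/-- The cosets of order two. -/
def e0 : List ℕ :=
  [24, 10, 129, 0, 32, 24, 2, 0, 0, 96, 8, 145, 0, 16, 322, 32, 8, 32, 4, 322, 129, 24, 10, 129,
   0, 32, 24, 2, 2, 0, 272, 2, 0, 2, 24]

/-- The cosets in the first direction. -/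
def e1 : List ℕ :=
  [32, 48, 427, 56, 485, 32, 32, 0, 0, 0, 0, 0, 0, 0]

/-- The cosets in the second direction. -/
def e2 : List ℕ :=
  [453, 48, 28, 453, 453, 0, 0, 0, 0, 0]

/-- The cosets in the third direction. -/
def e3 : List ℕ :=
  [111, 4, 117, 111, 111, 0, 0, 0, 0, 0]

/-- A table with four indices. -/
def t4 (l : List ℕ) (x i j k : ℕ) : ℤ :=
  ((l.getD ((x * 5 + i) * 7 + j) 0 / 32 ^ k % 32 : ℕ) : ℤ) - 16

/-- A table with three indices. -/
def t3 (l : List ℕ) (a x i j : ℕ) : ℤ := ((l.getD (x * a + i) 0 / 2 ^ j % 2 : ℕ) : ℤ)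

theorem sorted {k p q r : ℕ} (hk0 : 0 < k) (hp : p.Prime) (hq : q.Prime) (hr : r.Prime)
    (h2 : 2 < p) (pq : p < q) (qr : q < r) (dp : p ∣ k) (dq : q ∣ k) (dr : r ∣ k)
    (h3 : 3 ∣ k → p = 3) :
    ∃ (n : ℕ) (x : Fin (Nat.totient k) → ℝ), (∀ s, ∃ c : ℤ, x s = (c : ℝ)) ∧
      (∃ y ∈ cyclopolytope k, x = (n : ℝ) • y) ∧
      ¬ ∃ z : Fin n → Fin (Nat.totient k) → ℝ,
        (∀ i, z i ∈ cyclopolytope k ∧ ∀ s, ∃ c : ℤ, z i s = (c : ℝ)) ∧ x = ∑ i, z i := by
  have op := hp.eq_two_or_odd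
  have oq := hq.eq_two_or_odd
  have or' := hr.eq_two_or_odd
  have H : ∀ e, e = 1 ∨ e = 2 → Hyp e p q r := fun e he =>
    ⟨he, hp, hq, hr, ⟨(p - 3) / 2, by omega⟩, ⟨(q - 5) / 2, by omega⟩, ⟨(r - 7) / 2, by omega⟩,
      pq, qr⟩
  have hd : ∀ e, e = 1 ∨ e = 2 → e ∣ k → e * p * q * r ∣ k := fun e he hek => by
    have nd := (H e he).nd
    exact ((hr.coprime_iff_not_dvd.mpr nd.2.2.1).symm).mul_dvd_of_dvd_of_dvd
      (((hq.coprime_iff_not_dvd.mpr nd.2.1.2.1).symm).mul_dvd_of_dvd_of_dvd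
        (((hp.coprime_iff_not_dvd.mpr nd.1.2.2).symm).mul_dvd_of_dvd_of_dvd hek dp) dq) dr
  have hl : ∀ e t l : ℕ, k = e * p * q * r * t → (2 ∣ k → e = 2) → l.Prime → l ∣ t →
      l ∣ e * p * q * r ∨ 5 ≤ l := by
    intro e t l hk he hl hlt
    have hlk : l ∣ k := hk ▸ hlt.mul_left _
    have := hl.two_le
    have := hl.eq_two_or_odd
    by_cases h5 : 5 ≤ l
    · exact Or.inr h5
    · left
      have h23 : l = 2 ∨ l = 3 := by omega
      rcases h23 with rfl | rfl
      · rw [he hlk]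
        exact ⟨p * q * r, by ring⟩
      · rw [h3 hlk]
        exact ⟨e * q * r, by ring⟩
  by_cases h : 2 ∣ k
  · obtain ⟨t, ht⟩ := hd 2 (Or.inr rfl) h
    have hl' := fun l => hl 2 t l ht fun _ => rfl
    subst ht
    exact cert (H 2 (Or.inr rfl)) (t4 eF) (t4 eG) (t3 e0 7) (t3 e1 7) (t3 e2 5) (t3 e3 5)
      (Or.inl rfl) (by unfold Canc; decide +kernel) (by unfold Old; decide +kernel)
      (by unfold Canc; decide +kernel) (by unfold Old; decide +kernel) (by decide +kernel)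
      (by decide +kernel) (by decide +kernel)
      (by unfold Canc; decide +kernel) (by unfold Canc; decide +kernel) (by decide +kernel)
      (by decide +kernel) t (Nat.pos_of_mul_pos_left hk0) hl'
  · obtain ⟨t, ht⟩ := hd 1 (Or.inl rfl) (one_dvd k)
    have hl' := fun l => hl 1 t l ht fun h' => absurd h' h
    subst ht
    exact cert (H 1 (Or.inl rfl)) (t4 oF) (t4 oG) (fun _ _ _ => 0) (t3 o1 7) (t3 o2 5)
      (t3 o3 5) (Or.inr rfl) (by unfold Canc; decide +kernel) (by unfold Old; decide +kernel)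
      (by unfold Canc; decide +kernel) (by unfold Old; decide +kernel) (by decide +kernel)
      (by decide +kernel) (by decide +kernel)
      (by unfold Canc; decide +kernel) (by unfold Canc; decide +kernel) (by decide +kernel)
      (by decide +kernel) t (Nat.pos_of_mul_pos_left hk0) hl'

theorem result (k p q r : ℕ) (hk0 : 0 < k) (hp : p.Prime) (hq : q.Prime) (hr : r.Prime)
    (h2 : 2 < p) (pq : p < q) (qr : q < r) (dp : p ∣ k) (dq : q ∣ k) (dr : r ∣ k) :
    ∃ (n : ℕ) (x : Fin (Nat.totient k) → ℝ), (∀ s, ∃ c : ℤ, x s = (c : ℝ)) ∧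
      (∃ y ∈ cyclopolytope k, x = (n : ℝ) • y) ∧
      ¬ ∃ z : Fin n → Fin (Nat.totient k) → ℝ,
        (∀ i, z i ∈ cyclopolytope k ∧ ∀ s, ∃ c : ℤ, z i s = (c : ℝ)) ∧ x = ∑ i, z i := by
  by_cases h3 : 3 ∣ k
  · exact sorted hk0 Nat.prime_three hq hr (by norm_num) (by omega) qr h3 dq dr fun _ => rfl
  · exact sorted hk0 hp hq hr h2 pq qr dp dq dr fun h => absurd h h3

end Pool.Agent.Results.MP_c80912_nt.NotNormal
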